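import Mathlib
import Pool.Agent.Lib.MP_7c4eee_pr.H32Final

open MeasureTheory ProbabilityTheory Filter Topology BoundedContinuousFunction
open scoped NNReal ContDiff
open Pool.Agent.Lib.MP_7c4eee_pr

namespace Pool.Agent.Results.MP_7c4eee_pr.Counterexample

/-- A smooth bounded simply connected domain, an admissible weight and a mean zero test function
for which the tested height function converges in law to no centred Gaussian variable. -/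
theorem result : ∃ (D : Set ℂ) (Φ : ℝ → ℝ) (f : ℂ → ℝ),
    (IsOpen D ∧ Bornology.IsBounded D ∧ IsSimplyConnected D ∧
      ∃ F : ℂ → ℝ, ContDiff ℝ ∞ F ∧ D = {z | F z < 0} ∧ ∀ z, F z = 0 → fderiv ℝ F z ≠ 0) ∧
    (ContDiff ℝ ∞ Φ ∧ (∀ t, 0 ≤ Φ t) ∧ (∃ C, ∀ t, Φ t ≤ C) ∧ (∀ t, Φ (-t) = Φ t) ∧
      (∃ a, ∀ t, a ≤ |t| → Φ t = 0) ∧ ∃ c > 0, ∀ᶠ t in 𝓝 0, c ≤ Φ t) ∧
    (ContDiff ℝ ∞ f ∧ HasCompactSupport f ∧ tsupport f ⊆ D ∧ ∫ z, f z = 0) ∧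
    ∀ (x0 : ℝ → Pt) (c : ℝ → ℂ → Pt),
      (∀ᶠ δ in 𝓝[>] 0, pos δ (x0 δ) ∈ D ∧ Measurable (c δ) ∧ ∀ z, ‖z - pos δ (c δ z)‖ ≤ 2 * δ) →
      (∀ᶠ δ in 𝓝[>] 0, (∀ x, x ∈ vert D δ (x0 δ) ↔ Rch {y | pos δ y ∈ D} (x0 δ) x) ∧
        expect Φ (vert D δ (x0 δ)) (x0 δ) (fun _ => 1) = 1) ∧
      ∀ v : ℝ≥0, ¬∀ φ : ℝ →ᵇ ℝ, Tendsto (fun δ => expect Φ (vert D δ (x0 δ)) (x0 δ)
        fun H => φ (pairing (c δ) f H)) (𝓝[>] 0) (𝓝 (∫ y, φ y ∂gaussianReal 0 v)) := by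
  obtain ⟨Φ, f, a, b, h⟩ := counterexample
  refine ⟨_, Φ, f, ⟨isOpen_lt dfn_smooth.continuous continuous_const, dfn_bounded, dfn_simply,
    dfn, dfn_smooth, rfl, fun _ => dfn_regular⟩, a, b, fun x0 c d => ⟨?_, h x0 c d⟩⟩
  obtain ⟨a1, a2, -, -, ⟨r, a3⟩, e, a4, a5⟩ := a
  filter_upwards [d, self_mem_nhdsWithin] with δ k l
  exact ⟨vert_spec dfn_bounded l k.1,
    expect_one a1.continuous a2 (a4.trans_le a5.self_of_nhds) a3 _ _ _⟩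

end Pool.Agent.Results.MP_7c4eee_pr.Counterexample
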